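import Pool.Agent.Work.MP_36bee3_al.Example

/-!
A Fischer class of finite soluble groups that is not closed under subdirect products.

A class is a predicate `X` on groups. The six parts of the statement say: members are finite
and soluble; `X` is closed under isomorphism; `X` contains the trivial group; `X` is
`N₀`-closed; `X` is `F`-closed; some finite soluble group outside `X` has two normal subgroups
with trivial intersection and both quotients in `X`.
-/

namespace Pool.Agent.Results.MP_36bee3_al.NotRZeroClosed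

open Pool.Agent.Work.MP_36bee3_al

theorem result :
    ∃ X : (G : Type) → [Group G] → Prop,
      (∀ (G : Type) [Group G], X G → Finite G ∧ Group.IsSolvable G) ∧
      (∀ (G H : Type) [Group G] [Group H], Nonempty (G ≃* H) → X G → X H) ∧
      (∀ (G : Type) [Group G], Subsingleton G → X G) ∧
      (∀ (G : Type) [Group G] [Finite G] [Group.IsSolvable G] (n : ℕ) (N : Fin n → Subgroup G),
        (∀ i, (N i).IsSubnormal ∧ X (N i)) → ⨆ i, N i = ⊤ → X G) ∧
      (∀ (H : Type) [Group H] (G : Subgroup H), X H →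
        Group.IsNilpotent (G ⧸ G.normalCore.subgroupOf G) → X G) ∧
      ∃ (G : Type) (_ : Group G) (_ : Finite G) (_ : Group.IsSolvable G) (M₁ M₂ : Subgroup G)
        (_ : M₁.Normal) (_ : M₂.Normal),
        M₁ ⊓ M₂ = ⊥ ∧ X (G ⧸ M₁) ∧ X (G ⧸ M₂) ∧ ¬ X G := by
  refine ⟨fun G _ => Finite G ∧ Group.IsSolvable G ∧ sW G = ⊤, fun G _ h => ⟨h.1, h.2.1⟩,
    ?_, ?_, ?_, ?_, ?_⟩
  · rintro G H _ _ ⟨e⟩ ⟨h1, h2, h3⟩
    exact ⟨Finite.of_equiv _ e.toEquiv,
      Group.isSolvable_of_surjective (f := e.toMonoidHom) e.surjective,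
      sW_top_of_equiv e.symm h3⟩
  · intro G _ h
    exact ⟨inferInstance, inferInstance, Subsingleton.elim _ _⟩
  · intro G _ h1 h2 n N hN htop
    exact ⟨h1, h2, sW_top_of_subnormal N (fun i => (hN i).1) (fun i => (hN i).2.2.2) htop⟩
  · rintro H _ G ⟨h1, h2, h3⟩ hG
    exact ⟨inferInstance, inferInstance, sW_top_of_fischer h3 G hG⟩
  · refine ⟨Gc, inferInstance, inferInstance, inferInstance,
      (Wr.map Wr.pr : Gc →* Ga).ker, (Wr.pr : Gc →* Gb).ker, inferInstance, inferInstance,
      Wr.ker_inf_ker _, ⟨inferInstance, inferInstance, ?_⟩, ⟨inferInstance, inferInstance, ?_⟩,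
      fun h => sW_Gc h.2.2⟩
    · exact sW_top_of_equiv (QuotientGroup.quotientKerEquivOfSurjective _
        (Wr.map_surjective _ Wr.pr_surjective)) sW_Ga
    · exact sW_top_of_equiv (QuotientGroup.quotientKerEquivOfSurjective _
        Wr.pr_surjective) sW_Gb

end Pool.Agent.Results.MP_36bee3_al.NotRZeroClosed
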